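import Pool.Agent.H773.CS.Stm

/-!
Project CS (helper773, MP_8ad0a3_lc): the fractional solution on one tuple of blocks (`t_lp`).
-/

open Finset

namespace Pool.Agent.H703.CS

open Pool.Agent.H773.CS

lemma cnt (P : ℕ) (f : ℕ → Bool) : (univ.filter (fun θ : Fin P => f θ.val = true)).card =
    ((range P).filter (fun t => f t = true)).card := by
  rw [← Finset.card_map Fin.valEmbedding]
  congr 1
  ext t
  simp only [mem_map, mem_filter, mem_univ, true_and, mem_range, Fin.valEmbedding_apply]
  constructor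
  · rintro ⟨θ, h, rfl⟩
    exact ⟨θ.2, h⟩
  · rintro ⟨h1, h2⟩
    exact ⟨⟨t, h1⟩, h2, rfl⟩

lemma cntI (P A B : ℕ) (f : ℕ → Bool) (hB : B ≤ P)
    (h : ∀ t, t < P → (f t = true ↔ (A ≤ t ∧ t < B))) :
    (univ.filter (fun θ : Fin P => f θ.val = true)).card = B - A := by
  rw [cnt, ← Nat.card_Ico A B]
  congr 1
  ext t
  simp only [mem_filter, mem_range, mem_Ico]
  constructor
  · rintro ⟨h1, h2⟩
    exact (h t h1).1 h2
  · rintro ⟨h1, h2⟩
    exact ⟨by omega, (h t (by omega)).2 ⟨h1, h2⟩⟩

lemma cntU (P A B : ℕ) (f : ℕ → Bool) (hA : A ≤ B) (hB : B ≤ P)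
    (h : ∀ t, t < P → (f t = true ↔ (t < A ∨ B ≤ t))) :
    (univ.filter (fun θ : Fin P => f θ.val = true)).card = A + (P - B) := by
  have hd : Disjoint (range A) (Ico B P) := by
    rw [Finset.disjoint_left]
    intro t h1 h2
    rw [mem_range] at h1
    rw [mem_Ico] at h2
    omega
  have hc : (range A ∪ Ico B P).card = A + (P - B) := by
    rw [Finset.card_union_of_disjoint hd, card_range, Nat.card_Ico]
  rw [cnt, ← hc]
  congr 1
  ext t
  simp only [mem_filter, mem_range, mem_Ico, mem_union]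
  constructor
  · rintro ⟨h1, h2⟩
    rcases (h t h1).1 h2 with h3 | h3
    · exact Or.inl h3
    · exact Or.inr ⟨h3, h1⟩
  · intro h3
    have h1 : t < P := by omega
    refine ⟨h1, (h t h1).2 ?_⟩
    omega

/-- bits of x -/
def xb (P x y t : ℕ) : Bool :=
  if x + y < P then decide (y ≤ t ∧ t < x + y) else decide (P ≤ t + x)

/-- bits of u = x + y -/
def ub (P x y t : ℕ) : Bool :=
  if x + y < P then decide (t < x + y) else decide (P ≤ t + x ∧ t < y)

/-- bits of r' -/
def rb (P p t : ℕ) : Bool :=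
  if p = 0 then decide ((p + P) / 2 < t) else decide (t + P < 2 * ((p + P) / 2) ∨ (p + P) / 2 ≤ t)

/-- all bits of a block -/
def bt (P y x1 x2 p : ℕ) : Fin 10 → ℕ → Bool :=
  ![fun t => decide (t < y), xb P x1 y, ub P x1 y, xb P x2 y, ub P x2 y,
    fun t => decide (t < p / 2), fun t => decide (p / 2 ≤ t ∧ t < 2 * (p / 2)),
    fun t => decide (t < (p + P) / 2), rb P p, fun t => decide (t < p)]

lemma cx (P x y : ℕ) (hx : x < P) (hy : y < P) :
    (univ.filter (fun θ : Fin P => xb P x y θ.val = true)).card = x := by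
  by_cases h : x + y < P
  · rw [cntI P y (x + y) (xb P x y) h.le]
    · omega
    · intro t ht
      simp only [xb, if_pos h, decide_eq_true_eq]
  · rw [cntI P (P - x) P (xb P x y) le_rfl]
    · omega
    · intro t ht
      simp only [xb, if_neg h, decide_eq_true_eq]
      omega

lemma cu (P x y : ℕ) (hx : x < P) (hy : y < P) :
    (univ.filter (fun θ : Fin P => ub P x y θ.val = true)).card = (x + y) % P := by
  by_cases h : x + y < P
  · rw [cntI P 0 (x + y) (ub P x y) h.le, Nat.mod_eq_of_lt h]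
    · omega
    · intro t ht
      simp only [ub, if_pos h, decide_eq_true_eq]
      omega
  · have h2 : (x + y) % P = x + y - P := by
      rw [Nat.mod_eq_sub_mod (by omega), Nat.mod_eq_of_lt (by omega)]
    rw [cntI P (P - x) y (ub P x y) hy.le, h2]
    · omega
    · intro t ht
      simp only [ub, if_neg h, decide_eq_true_eq]
      omega

lemma cr (P p : ℕ) (hP : P % 2 = 1) (hp : p < P) :
    (univ.filter (fun θ : Fin P => rb P p θ.val = true)).card = (p + P) / 2 := by
  by_cases h : p = 0
  · rw [cntI P ((p + P) / 2 + 1) P (rb P p) le_rfl]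
    · omega
    · intro t ht
      simp only [rb, if_pos h, decide_eq_true_eq]
      omega
  · rw [cntU P (2 * ((p + P) / 2) - P) ((p + P) / 2) (rb P p) (by omega) (by omega)]
    · omega
    · intro t ht
      simp only [rb, if_neg h, decide_eq_true_eq]
      omega

lemma cl (P A : ℕ) (hA : A ≤ P) :
    (univ.filter (fun θ : Fin P => (decide (θ.val < A)) = true)).card = A := by
  rw [cntI P 0 A (fun t => decide (t < A)) hA]
  · omega
  · intro t ht
    simp only [decide_eq_true_eq]
    omega

lemma cz (P A : ℕ) (hA : 2 * A ≤ P) :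
    (univ.filter (fun θ : Fin P => (decide (A ≤ θ.val ∧ θ.val < 2 * A)) = true)).card = A := by
  rw [cntI P A (2 * A) (fun t => decide (A ≤ t ∧ t < 2 * A)) hA]
  · omega
  · intro t ht
    simp only [decide_eq_true_eq]

/-- the bits of a block -/
def bb {P : ℕ} (b : Blk P) (r : Fin 10) (t : ℕ) : Bool :=
  bt P b.1.1.val b.2.1.1.val b.2.2.1.1.val b.2.2.2.1.val r t

lemma bb_card {P : ℕ} [NeZero P] (hP : P % 2 = 1) (b : Blk P) (r : Fin 10) :
    (univ.filter (fun θ : Fin P => bb b r θ.val = true)).card = (bvar b r).1.val := by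
  have hy := ZMod.val_lt b.1.1
  have hx1 := ZMod.val_lt b.2.1.1
  have hx2 := ZMod.val_lt b.2.2.1.1
  have hp := ZMod.val_lt b.2.2.2.1
  have hz : (zf b.2.2.2.1).val = b.2.2.2.1.val / 2 := by
    unfold zf
    rw [ZMod.val_natCast, Nat.mod_eq_of_lt (by omega)]
  have hr : (rf b.2.2.2.1).val = (b.2.2.2.1.val + P) / 2 := by
    unfold rf
    rw [ZMod.val_natCast, Nat.mod_eq_of_lt (by omega)]
  fin_cases r
  · exact cl P _ hy.le
  · exact cx P _ _ hx1 hy
  · exact (cu P _ _ hx1 hy).trans (ZMod.val_add _ _).symm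
  · exact cx P _ _ hx2 hy
  · exact (cu P _ _ hx2 hy).trans (ZMod.val_add _ _).symm
  · exact (cl P _ (by omega)).trans hz.symm
  · exact (cz P _ (by omega)).trans hz.symm
  · exact (cl P _ (by omega)).trans hr.symm
  · exact (cr P _ hP hp).trans hr.symm
  · exact cl P _ hp.le

lemma bv_bit {q : ℕ} (c : Bool) : bv (Sym.bit c : Sym q) = if c = true then 1 else 0 := by
  cases c <;> rfl

lemma xu (P x y t : ℕ) (hx : x < P) (hy : y < P) (ht : t < P) :
    ((if ub P x y t = true then 1 else 0 : ℤ)) = (if xb P x y t = true then 1 else 0) +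
      (if decide (t < y) = true then 1 else 0) - (if decide (P ≤ x + y) = true then 1 else 0) := by
  by_cases h : x + y < P
  · simp only [xb, ub, if_pos h, decide_eq_true_eq]
    rw [if_neg (show ¬ P ≤ x + y by omega)]
    split_ifs <;> first | rfl | (exfalso; omega)
  · simp only [xb, ub, if_neg h, decide_eq_true_eq]
    rw [if_pos (show P ≤ x + y by omega)]
    split_ifs <;> first | rfl | (exfalso; omega)

lemma pz (p t : ℕ) (h : p = 0 ∨ t ≠ p - 1) :
    ((if decide (t < p) = true then 1 else 0 : ℤ)) = (if decide (t < p / 2) = true then 1 else 0) +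
      (if decide (p / 2 ≤ t ∧ t < 2 * (p / 2)) = true then 1 else 0) := by
  simp only [decide_eq_true_eq]
  split_ifs <;> first | rfl | (exfalso; omega)

lemma pr (P p t : ℕ) (hP : P % 2 = 1) (hp : p < P) (h : t ≠ if p = 0 then (p + P) / 2 else p - 1) :
    ((if decide (t < p) = true then 1 else 0 : ℤ)) =
      (if decide (t < (p + P) / 2) = true then 1 else 0) +
      (if rb P p t = true then 1 else 0) - 1 := by
  by_cases h0 : p = 0
  · rw [if_pos h0] at h
    simp only [rb, if_pos h0, decide_eq_true_eq]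
    split_ifs <;> first | rfl | (exfalso; omega)
  · rw [if_neg h0] at h
    simp only [rb, if_neg h0, decide_eq_true_eq]
    split_ifs <;> first | rfl | (exfalso; omega)

lemma bb_ok {P : ℕ} [NeZero P] (q : ℕ) (hP : P % 2 = 1) (b : Blk P) (t : ℕ) (ht : t < P)
    (h : t ≠ if b.2.2.2.1.val = 0 then (b.2.2.2.1.val + P) / 2 else b.2.2.2.1.val - 1) :
    BitOK (q := q) (dig b) (fun r => .bit (bb b r t)) := by
  have hy := ZMod.val_lt b.1.1
  have hx1 := ZMod.val_lt b.2.1.1
  have hx2 := ZMod.val_lt b.2.2.1.1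
  have hp := ZMod.val_lt b.2.2.2.1
  refine ⟨fun r => ⟨_, rfl⟩, ?_, ?_, ?_, ?_⟩
  · simp only [bv_bit]
    exact xu P b.2.1.1.val b.1.1.val t hx1 hy ht
  · simp only [bv_bit]
    exact xu P b.2.2.1.1.val b.1.1.val t hx2 hy ht
  · simp only [bv_bit]
    refine pz b.2.2.2.1.val t ?_
    by_cases h0 : b.2.2.2.1.val = 0
    · exact Or.inl h0
    · rw [if_neg h0] at h
      exact Or.inr h
  · simp only [bv_bit]
    exact pr P b.2.2.2.1.val t hP hp h

theorem t_lp : S_lp := by
  intro P q n _ hP hP3 b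
  refine ⟨fun θ k => bb (b (finProdFinEquiv.symm k).1) (finProdFinEquiv.symm k).2 θ.val, ?_, ?_⟩
  · intro k
    exact bb_card hP _ _
  · classical
    set g : Fin (n + 1) → ℕ := fun i =>
      if (b i).2.2.2.1.val = 0 then ((b i).2.2.2.1.val + P) / 2 else (b i).2.2.2.1.val - 1 with hg
    have hsub : (Fin.val '' {θ : Fin P | ¬ ∀ i, BitOK (q := q) (dig (b i)) (fun r => .bit
        ((fun (θ : Fin P) k => bb (b (finProdFinEquiv.symm k).1) (finProdFinEquiv.symm k).2 θ.val)
          θ (ps i r)))}) ⊆ ((univ.image g : Finset ℕ) : Set ℕ) := by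
      rintro t ⟨θ, hθ, rfl⟩
      rw [Set.mem_setOf_eq, not_forall] at hθ
      obtain ⟨i, hi⟩ := hθ
      rw [Finset.coe_image, Set.mem_image]
      refine ⟨i, by simp, ?_⟩
      by_contra hne
      apply hi
      have h1 := bb_ok q hP (b i) θ.val θ.2 (fun h => hne h.symm)
      simpa only [ps, Equiv.symm_apply_apply] using h1
    rw [← Set.ncard_image_of_injective _ Fin.val_injective]
    refine (Set.ncard_le_ncard hsub (Finset.finite_toSet _)).trans ?_
    rw [Set.ncard_coe_finset]
    refine Finset.card_image_le.trans ?_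
    rw [Finset.card_univ, Fintype.card_fin]

end Pool.Agent.H703.CS
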